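import Pool.Agent.H644.LD.Choice

/-!
# Determinizing 1-limited automata and branching programs for connectivity

`D(n)` is the cost of determinizing 1-limited automata (LAs). The bounds `2 ^ Ω(n ^ 2) ≤ D(n) ≤ 2 ^ O(n ^ 4)`
are known (library of earlier runs). Here `D(n)` is compared with the least number `connSize m` of nodes of a
branching program which decides whether in a directed graph with `m` vertices there is a path from the first
to the last vertex. These programs have polynomial size if and only if `NL ⊆ L/poly`.

* `D(n) ≤ 2 ^ (2 n ^ 2 + n + 11) * connSize (2 ^ (2 n ^ 2 + 2))`. So if `NL ⊆ L/poly` then `log D(n)` is of the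
  order `n ^ 2`, and a lower bound for `D(n)` which is not of the form `2 ^ O(n ^ 2)` would prove
  `NL ⊄ L/poly`.
* LAs of size `n` without choice what to write, for example two-way nondeterministic finite automata, have
  equivalent deterministic LAs of size at most `7140 n ^ 9 * connSize (4 n ^ 5)`: polynomial if `NL ⊆ L/poly`.
* `D(n)` is at most `7140 c ^ 9 * connSize (4 c ^ 5)`, where `c` is the cost of removing the choice what to write.

Proof. The deterministic automaton divides its input in blocks and writes the set of the configurations that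
can be reached (pairs of a table and a state, as in Shepherdson's construction), one bit per cell, in the
next block. For each bit it must decide whether there is a path in a layered graph, whose edges are read off
from the cells of the block. It runs the branching program, whose current node is kept in the state; for a
query it goes to the cell which contains the answer and comes back.
-/

set_option autoImplicit false

namespace Pool.Agent.Results.MP_0036f5_lc.BranchingPrograms

open Filter Asymptotics
open Pool.Agent.H630R2.LA (LimAut D)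
open Pool.Agent.Y527.LA (NoChoice)
open Pool.Agent.H644.LB (BranchProg connSize)
open Pool.Agent.H644.LD (Cls Between cost)

/-- **Determinization of 1-limited automata by branching programs for connectivity.** -/
theorem result (strict : Prop) :
    -- (1) `connSize m` is the least size of a branching program for connectivity
    (∀ m : ℕ, IsLeast {s | ∃ P : BranchProg m, P.DecidesConn ∧ P.size = s} (connSize m)) ∧
    -- (2) arbitrary 1-limited automata
    (∀ n m : ℕ, 2 ^ (2 * n ^ 2 + 2) ≤ m →
      D strict n ≤ 2 ^ (2 * n ^ 2 + n + 11) * connSize m) ∧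
    -- (3) 1-limited automata without choice what to write
    (∀ (A : Type) [Finite A] (M : LimAut A) (m : ℕ), NoChoice strict M → 4 * M.size ^ 5 ≤ m →
      ∃ M' : LimAut A, M'.Deterministic ∧ M'.language strict = M.language strict ∧
        M'.size ≤ 7140 * M.size ^ 9 * connSize m) ∧
    -- (4) comparison with the cost of removing the choice what to write
    (∀ C : Cls, Between strict C → ∀ n m : ℕ, 4 * cost C strict n ^ 5 ≤ m →
      D strict n ≤ 7140 * cost C strict n ^ 9 * connSize m) ∧
    -- (5) one-way nondeterministic automata
    (∀ N m : ℕ, 1 ≤ N → 34 * N ^ 2 ≤ m → ∀ (A σ : Type) [Finite A] [Finite σ] (M : NFA A σ),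
      Nat.card σ ≤ N → ∃ M' : LimAut A, M'.Deterministic ∧
        (∀ w, w ∈ M'.language strict ↔ w ∈ M.accepts) ∧
        Nat.card M'.Q ≤ 1024 * N ^ 2 * connSize m ∧ Nat.card M'.W = 3 * Nat.card A + 1) ∧
    -- (6) if there are branching programs of polynomial size
    (∀ k : ℕ, (∀ᶠ m in atTop, connSize m ≤ m ^ k) →
      (fun n : ℕ => Real.log (D strict n)) =Θ[atTop] (fun n : ℕ => (n : ℝ) ^ 2) ∧
      (∃ c : ℕ, ∀ (A : Type) [Finite A] (M : LimAut A), NoChoice strict M →
        ∃ M' : LimAut A, M'.Deterministic ∧ M'.language strict = M.language strict ∧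
          M'.size ≤ M.size ^ c) ∧
      (∃ c : ℕ, ∀ C : Cls, Between strict C → ∀ n : ℕ, D strict n ≤ cost C strict n ^ c)) ∧
    -- (7) better lower bounds for `D(n)` give lower bounds for branching programs
    (∀ n k : ℕ, 4 ≤ n → 2 ^ ((3 * k + 3) * n ^ 2) < D strict n →
      (2 ^ (2 * n ^ 2 + 2)) ^ k < connSize (2 ^ (2 * n ^ 2 + 2))) ∧
    ((∀ C : ℕ, ∃ᶠ n in atTop, 2 ^ (C * n ^ 2) < D strict n) →
      ∀ k : ℕ, ∃ᶠ m in atTop, m ^ k < connSize m) := by
  have hG := Pool.Agent.H644.LB.graph
  refine ⟨fun m => ?_, fun n m hm => Pool.Agent.H644.LB.D_le hG strict n m hm,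
    fun A _ M m h hm => Pool.Agent.H644.LD.det_noChoice strict M h m hm,
    fun C hC n m hm => Pool.Agent.H644.LD.D_le_cost strict C hC n m hm,
    fun N m hN hm A σ _ _ M hc => Pool.Agent.H644.LB.nfa_upper hG strict N m hN hm A σ M hc,
    fun k h => ⟨Pool.Agent.H644.LB.collapse hG strict k h,
      Pool.Agent.H644.LD.poly_det strict k h, Pool.Agent.H644.LD.poly_cost strict k h⟩,
    fun n k hn h => ?_, fun h k => ?_⟩
  · obtain ⟨P, hP, hs⟩ := Pool.Agent.H644.LB.exists_least m
    refine ⟨⟨P, hP, hs⟩, ?_⟩
    rintro s ⟨P', h1, h2⟩
    exact Nat.sInf_le ⟨P', h1, h2⟩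
  · by_contra hcon
    rw [not_lt] at hcon
    exact absurd (Pool.Agent.H644.LB.barrier hG strict n k hn hcon) (not_le.2 h)
  · rw [Filter.Frequently]
    intro hcon
    have h1 : ∀ᶠ m in atTop, connSize m ≤ m ^ k := by
      filter_upwards [hcon] with m hm
      exact not_lt.1 hm
    have h2 : ∀ᶠ n in atTop, ¬ 2 ^ ((3 * k + 3) * n ^ 2) < D strict n := by
      filter_upwards [Pool.Agent.H644.LB.tendsto_m.eventually h1, eventually_ge_atTop 4] with n h3 h4
      exact not_lt.2 (Pool.Agent.H644.LB.barrier hG strict n k h4 h3)
    exact h (3 * k + 3) h2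

end Pool.Agent.Results.MP_0036f5_lc.BranchingPrograms
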