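import Mathlib
import Pool.Agent.H720.CT.Low

/-!
# Unambiguous self-verifying 1-limited automata with one guess are as hard to determinize

`LimAut`, `language`, `size` (number of symbols of the description) are the 1-limited automata (LAs)
of the problem; `strict` selects one of the two readings of the rule that visited cells are frozen.

`UnambSelfVer strict M`: for some set `R` of rejecting states, disjoint from the set of the final
states, every input has exactly one computation that ends beyond the right end-marker in a final or
in a rejecting state.  `OneGuess strict M`: every computation makes at most one move in which it has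
a choice what to write.  The library knows that the cost `D(n)` of determinization lies between
`2 ^ Ω(n ^ 2)` and `2 ^ O(n ^ 4)`, that LAs which have no choice what to write can be determinized
at a quasi-polynomial cost, and that the lower bound holds already for LAs with one guess; the
witnesses are ambiguous and not self-verifying.  Here the lower bounds are proved for the LAs which
are at the same time unambiguous, self-verifying and make at most one guess.

For classes `P`, `C` of LAs let `convCost strict P C n` be the greatest of the least sizes of an LA in
`C` that is equivalent to `M`, for the LAs `M` in `P` of size at most `n`.  Let `P` be any class that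
contains all LAs which are unambiguous, self-verifying and make at most one guess.

* (1) `convCost strict P C n = 2 ^ Θ(n ^ 2)` for every class `C` between the one-way nondeterministic
  finite automata and the LAs without choice what to write, for example for the one-way and for the
  two-way nondeterministic finite automata.
* (2) The cost of determinizing the LAs in `P` is at least `2 ^ Ω(n ^ 2)` (and at most
  `2 ^ O(n ^ 4)`, as for all LAs).
* (3) The witnesses: for every `m ≥ 1` there is an LA over the alphabet `{0, 1}` with
  `72 (m + 1) + 61` states and of size at most `16000 (m + 1)`, unambiguous, self-verifying and with at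
  most one guess in both readings, for the language of the words whose `N`-th letter from the end is
  `1`, where `N = 3 m ^ 2 (2 ^ (m ^ 2) + 1)`.  Every equivalent LA without choice what to write
  (deterministic LA, two-way nondeterministic finite automaton, ...) has a number `q` of states with
  `2 ^ (m ^ 2) ≤ q ^ 2 + q`, every equivalent deterministic LA has a number `q` of states with
  `2 ^ (2 ^ (m ^ 2)) ≤ (q + 1) ^ (q + 1)`, every equivalent one-way nondeterministic finite automaton
  has at least `2 ^ (m ^ 2)` states, and every equivalent one-way deterministic finite automaton has
  at least `2 ^ (2 ^ (m ^ 2))` states.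

So neither unambiguity nor self-verification nor both help to determinize 1-limited automata below
`2 ^ Ω(n ^ 2)`, while `UnambiguousSelfVerifying` shows that LAs can be made unambiguous and
self-verifying at the cost `2 ^ Θ(n ^ 2)`.

Proof.  The witness guesses the `N`-th letter from the end, marks it, and then verifies the guess
with a binary counter with `m ^ 2` digits.  It writes the values of the counter on the visited cells,
three cells for every digit, `m` digits in a row and `m` rows in a block, and the successive blocks
hold the numbers `0, 1, ..., 2 ^ (m ^ 2)`.  To write a digit it needs the digit in the same row and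
column of the previous block.  It counts the rows on the way back, and can remember the number of
the row until it has found the row in the previous block; there it guesses the column, remembers
this column on the way to the next new cell, and verifies the column on another trip.  So it needs
only `O(m)` states, and for each digit exactly one guess of the column survives.  When the counter
overflows the head has to be on the right end-marker.  Another computation, which counts without a
mark from the first cell, answers if the input is shorter than `N`, and is stuck otherwise.
-/

set_option autoImplicit false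
set_option exponentiation.threshold 10000000000

namespace Pool.Agent.Results.MP_0036f5_lc.DeterminizeUnambSelfVer

open Filter Asymptotics
open Pool.Agent.H630R2.LA Pool.Agent.H720.UV Pool.Agent.H720.CT
open Pool.Agent.Y527.LA (NoChoice OneWay NeverRewrites)

theorem result (strict : Prop) :
    -- (1) conversion to classes between one-way nondeterministic finite automata and automata
    -- without choice what to write
    (∀ P C : Cls,
      (∀ (A : Type) (M : LimAut A), UnambSelfVer strict M → OneGuess strict M → P A M) →
      (∀ (A : Type) (M : LimAut A), OneWay M → NeverRewrites M → C A M) →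
      (∀ (A : Type) (M : LimAut A), C A M → NoChoice strict M) →
      (∀ n : ℕ, convCost strict P C n ≤ 2 ^ (2 * n ^ 2)) ∧
      (∀ n : ℕ, 32000 ≤ n → 2 ^ (n ^ 2) ≤ convCost strict P C n ^ 5000000000) ∧
      (fun n : ℕ => Real.log (convCost strict P C n)) =Θ[atTop] fun n : ℕ => (n : ℝ) ^ 2) ∧
    -- (2) determinization
    (∀ P : Cls,
      (∀ (A : Type) (M : LimAut A), UnambSelfVer strict M → OneGuess strict M → P A M) →
      ∀ n : ℕ, convCost strict P (fun _ M => M.Deterministic) n ≤ 2 ^ ((n + 2) ^ 4) ∧
        (32000 ≤ n →
          2 ^ (n ^ 2) ≤ convCost strict P (fun _ M => M.Deterministic) n ^ 5000000000)) ∧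
    -- (3) the witnesses
    (∀ m : ℕ, 1 ≤ m → ∃ M : LimAut Bool,
      Nat.card M.Q ≤ 72 * (m + 1) + 61 ∧ M.size ≤ 16000 * (m + 1) ∧
      (∀ strict' : Prop, UnambSelfVer strict' M ∧ OneGuess strict' M ∧
        ∀ w : List Bool, w ∈ M.language strict' ↔ 3 * (m * m * (2 ^ (m * m) + 1)) ≤ w.length ∧
          w[w.length - 3 * (m * m * (2 ^ (m * m) + 1))]? = some true) ∧
      (∀ M' : LimAut Bool, NoChoice strict M' → M'.language strict = M.language strict →
        2 ^ (m ^ 2) ≤ Nat.card M'.Q * Nat.card M'.Q + Nat.card M'.Q) ∧
      (∀ M' : LimAut Bool, M'.Deterministic → M'.language strict = M.language strict →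
        2 ^ (2 ^ (m ^ 2)) ≤ (Nat.card M'.Q + 1) ^ (Nat.card M'.Q + 1)) ∧
      (∀ (S : Type) [Finite S] (N : NFA Bool S), N.accepts = M.language strict →
        2 ^ (m ^ 2) ≤ Nat.card S) ∧
      (∀ (S : Type) [Finite S] (N : DFA Bool S), N.accepts = M.language strict →
        2 ^ (2 ^ (m ^ 2)) ≤ Nat.card S)) := by
  refine ⟨?_, ?_, ?_⟩
  · intro P C h1 h2 h3
    have hmono : Monotone fun n : ℕ => 2 ^ (2 * n ^ 2) := fun a b hab =>
      Nat.pow_le_pow_right (by omega) (Nat.mul_le_mul_left _ (Nat.pow_le_pow_left hab 2))
    have hb := fun n => convCost_bounds strict P C (fun n => 2 ^ (2 * n ^ 2)) hmono h1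
      (fun A _ M => ⟨Pool.Agent.Y527.LA.nfaM strict M,
        h2 _ _ Pool.Agent.Y527.LA.nfaM_oneWay Pool.Agent.Y527.LA.nfaM_never,
        Pool.Agent.Y527.LA.nfaM_language strict, Pool.Agent.Y527.LA.nfaM_size⟩)
      (fun M hM m hm hL => nc_lower hm (h3 _ _ hM) hL) n
    exact ⟨fun n => (hb n).1, fun n => (hb n).2,
      theta_of_bounds' _ (fun n => (hb n).1) (fun n => (hb n).2)⟩
  · intro P h1 n
    have hmono : Monotone fun n : ℕ => 2 ^ ((n + 2) ^ 4) := fun a b hab =>
      Nat.pow_le_pow_right (by omega) (Nat.pow_le_pow_left (Nat.add_le_add_right hab 2) 4)
    exact convCost_bounds strict P (fun _ M => M.Deterministic) (fun n => 2 ^ ((n + 2) ^ 4)) hmono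
      h1 (fun A _ M => upper M strict) (fun M hM m hm hL => det_lower hm hM hL) n
  · intro m hm
    refine ⟨Mc m, card_St, size_Mc hm, fun strict' => ⟨Mc_usv hm, Mc_oneGuess hm,
      fun w => Mc_language hm w⟩, ?_, ?_, ?_, ?_⟩
    · intro M' h1 h2
      exact nc_lower hm h1 (fun w => by rw [h2]; exact Mc_language hm w)
    · intro M' h1 h2
      exact det_lower' hm h1 (fun w => by rw [h2]; exact Mc_language hm w)
    · intro S _ N h2
      exact nfa_lower hm (fun w => by
        show w ∈ (N.accepts : Set (List Bool)) ↔ _
        rw [show (N.accepts : Set (List Bool)) = (Mc m).language strict from h2]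
        exact Mc_language hm w)
    · intro S _ N h2
      exact dfa_lower hm (fun w => by
        show w ∈ (N.accepts : Set (List Bool)) ↔ _
        rw [show (N.accepts : Set (List Bool)) = (Mc m).language strict from h2]
        exact Mc_language hm w)

end Pool.Agent.Results.MP_0036f5_lc.DeterminizeUnambSelfVer
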