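import Mathlib
import Pool.Agent.H720.UV.Low

/-!
# The cost of making 1-limited automata unambiguous and self-verifying is `2 ^ Θ(n ^ 2)`

`LimAut`, `language`, `size` (number of symbols of the description) are the 1-limited automata (LAs)
of the problem; `strict` selects one of the two readings of the rule that visited cells are frozen.

`UnambSelfVer strict M` (an LA that is as close to deterministic as a nondeterministic one can be):
for some set `R` of rejecting states, disjoint from the set of the final states, **every** input has
**exactly one** computation that ends beyond the right end-marker in a final or in a rejecting state.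
`SelfVer strict M`: every input has such a computation, and none has computations of both kinds.
`Subexp strict M` (the library, `NH88.FA`): subexponential ambiguity; it contains the unambiguous, the
finitely ambiguous and the polynomially ambiguous LAs.

For a class `P` of LAs let `cost strict P n` be the greatest of the least sizes of an LA in `P` that
is equivalent to `M`, for the LAs `M` of size at most `n`, and `compCost strict P n` the same for the
complement of the language of `M`.  The known bounds for the cost `D(n)` of determinization are
`2 ^ Ω(n ^ 2)` and `2 ^ O(n ^ 4)`; the lower bound holds for all `P` consisting of LAs of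
subexponential ambiguity, and so far the upper bound for these `P` was `2 ^ O(n ^ 4)`, too.

* (1) Every LA `M` with `q` states has equivalent unambiguous self-verifying LAs for its language and
  for the complement, with at most `2 ^ (77 (q ^ 2 + q) + 67)` states (for all alphabets) and of size
  at most `2 ^ (154 (size M) ^ 2)`.
* (2) Every one-way nondeterministic finite automaton with `s` states has an equivalent unambiguous
  self-verifying LA with at most `2 ^ 67 (s + 1) ^ 77` states.
* (3) For **every** class `P` between the unambiguous self-verifying LAs and the LAs that are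
  self-verifying or of subexponential ambiguity, `cost strict P n = 2 ^ Θ(n ^ 2)`.
* (4) For **every** class `P` of LAs that contains the unambiguous self-verifying ones, for example
  the class of all LAs, `compCost strict P n = 2 ^ Θ(n ^ 2)`: this is the cost of complementation.
* (5) The witnesses: LAs with `12 (m + 1)` states and of size at most `2080 (m + 1)` over an alphabet
  with seven letters.
* (6) The classes.

So if `D(n)` is not `2 ^ O(n ^ 2)`, then a proof of this has to separate the deterministic LAs from the
unambiguous self-verifying ones.

Proof.  The tape is divided into blocks of `B` cells, where `B` is the number of the pairs (table of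
the visited part of the tape, state) of `M` (or of the states of the one-way automaton), and the
`k`-th cell of a block gets the bit which says whether the `k`-th pair can be reached at the beginning
of the block.  This bit is computed, before the cell is visited, by an unambiguous procedure that
works in the previous block: inductive counting (Immerman, Szelepcsényi) in the layered graph given by
the block, where the numbers of the reachable pairs are accompanied by the sums of the minimal weights
of the paths to them, as in the proof of `NL/poly = UL/poly` by Reinhardt and Allender.  There is a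
list of `2 B ^ 3 + 3 B + 1` weight functions with values below `4 B ^ 3`, one of which has, for any content
of the two blocks, unique paths of minimal weight; the procedure finds out whether the current one has
this property and goes to the next one if it has not.  The lower bounds for self-verifying LAs and for
the complement use a fooling set of size `2 ^ (2 ^ (m ^ 2))`: the witness accepts a list of matrices
and a list of matrices given by queries if they have a common element, and a set and its complement
have none.
-/

set_option autoImplicit false
set_option exponentiation.threshold 100000000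

namespace Pool.Agent.Results.MP_0036f5_lc.UnambiguousSelfVerifying

open Filter Asymptotics
open Pool.Agent.H630R2.LA Pool.Agent.H720.UV
open Pool.Agent.NH19.LA (Unambiguous)
open Pool.Agent.NH88.FX (Ltr)
open Pool.Agent.NH88.FY (cost)
open Pool.Agent.NH88.FA (AccLE Subexp)

/-- **The cost of making 1-limited automata unambiguous and self-verifying is `2 ^ Θ(n ^ 2)`, and so
is the cost of complementation.** -/
theorem result (strict : Prop) :
    -- (1) unambiguous self-verifying simulation
    (∀ (A : Type) (M : LimAut A), ∃ M₁ M₂ : LimAut A,
      UnambSelfVer strict M₁ ∧ M₁.language strict = M.language strict ∧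
      Nat.card M₁.Q ≤ 2 ^ (77 * (Nat.card M.Q ^ 2 + Nat.card M.Q) + 67) ∧
      M₁.size ≤ 2 ^ (154 * M.size ^ 2) ∧
      UnambSelfVer strict M₂ ∧ M₂.language strict = (M.language strict)ᶜ ∧
      Nat.card M₂.Q ≤ 2 ^ (77 * (Nat.card M.Q ^ 2 + Nat.card M.Q) + 67) ∧
      M₂.size ≤ 2 ^ (154 * M.size ^ 2)) ∧
    -- (2) one-way nondeterministic automata
    (∀ (A S : Type) [Finite A] [Finite S] (N : NFA A S), ∃ M₁ : LimAut A,
      UnambSelfVer strict M₁ ∧ (∀ w, w ∈ M₁.language strict ↔ w ∈ N.accepts) ∧
      Nat.card M₁.Q ≤ 2 ^ 67 * (Nat.card S + 1) ^ 77 ∧
      M₁.size ≤ 2 ^ 141 * (Nat.card S + 1) ^ 154 * (Nat.card A + 1) ^ 2) ∧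
    -- (3) the cost of simulation
    (∀ P : (∀ A : Type, LimAut A → Prop),
      (∀ (A : Type) (M : LimAut A), UnambSelfVer strict M → P A M) →
      (∀ (A : Type) (M : LimAut A), P A M → Subexp strict M ∨ SelfVer strict M) →
      (∀ n : ℕ, cost strict P n ≤ 2 ^ (154 * n ^ 2)) ∧
      (∀ n : ℕ, 4160 ≤ n → 2 ^ (n ^ 2) ≤ cost strict P n ^ 80000000) ∧
      (fun n : ℕ => Real.log (cost strict P n)) =Θ[atTop] fun n : ℕ => (n : ℝ) ^ 2) ∧
    -- (4) the cost of complementation
    (∀ P : (∀ A : Type, LimAut A → Prop),
      (∀ (A : Type) (M : LimAut A), UnambSelfVer strict M → P A M) →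
      (∀ n : ℕ, compCost strict P n ≤ 2 ^ (154 * n ^ 2)) ∧
      (∀ n : ℕ, 4160 ≤ n → 2 ^ (n ^ 2) ≤ compCost strict P n ^ 80000000) ∧
      (fun n : ℕ => Real.log (compCost strict P n)) =Θ[atTop] fun n : ℕ => (n : ℝ) ^ 2) ∧
    -- (5) the witnesses
    (∀ m : ℕ, 1 ≤ m → ∃ M : LimAut Ltr, Nat.card M.Q ≤ 12 * (m + 1) ∧ M.size ≤ 2080 * (m + 1) ∧
      (∀ M' : LimAut Ltr, M'.language strict = M.language strict →
        (Subexp strict M' ∨ SelfVer strict M') →
        2 ^ (2 ^ (m ^ 2)) ≤ Nat.card M'.Q * 2 ^ (Nat.card M'.Q * Nat.card M'.Q) + 1) ∧
      ∀ M' : LimAut Ltr, M'.language strict = (M.language strict)ᶜ →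
        2 ^ (2 ^ (m ^ 2)) ≤ Nat.card M'.Q * 2 ^ (Nat.card M'.Q * Nat.card M'.Q)) ∧
    -- (6) the classes
    (∀ (A : Type) (M : LimAut A),
      (UnambSelfVer strict M → Unambiguous strict M ∧ SelfVer strict M) ∧
      (Unambiguous strict M → ∀ w, AccLE strict M w 1) ∧
      ((∃ C k : ℕ, ∀ w, AccLE strict M w (C * (w.length + 1) ^ k)) → Subexp strict M)) := by
  refine ⟨?_, ?_, ?_, ?_, ?_, ?_⟩
  · intro A M
    obtain ⟨M₁, h1, h2, h3, h4⟩ := la_usv M strict
    obtain ⟨M₂, g1, g2, g3, g4⟩ := la_usv_compl M strict
    exact ⟨M₁, M₂, h1 strict, h2 strict, h3, h4, g1 strict, g2 strict, g3, g4⟩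
  · intro A S _ _ N
    obtain ⟨M₁, h1, h2, h3, h4⟩ := nfa_usv N
    exact ⟨M₁, h1 strict, h2 strict, h3, h4⟩
  · intro P h1 h2
    have h := cost_main strict P h1 h2
    exact ⟨fun n => (h n).1, fun n => (h n).2, theta_of_bounds _ (fun n => (h n).1)
      (fun n => (h n).2)⟩
  · intro P h1
    have h := compCost_main strict P h1
    exact ⟨fun n => (h n).1, fun n => (h n).2, theta_of_bounds _ (fun n => (h n).1)
      (fun n => (h n).2)⟩
  · intro m hm
    exact witnesses strict m hm
  · intro A M
    refine ⟨fun h => ⟨h.unambiguous, h.selfVer⟩, accLE_of_unamb, ?_⟩
    rintro ⟨C, k, h⟩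
    exact Pool.Agent.NH88.FA.subexp_of_poly strict M C k h

end Pool.Agent.Results.MP_0036f5_lc.UnambiguousSelfVerifying
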